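import Pool.Agent.Helper878_c5.Defs
import Pool.Agent.Helper878_mm.Bridge

/-!
# Disjoint Connected Subgraphs on `3P_1`-free graphs without pentagons through two terminal sets
-/

set_option autoImplicit false
set_option linter.unusedSectionVars false

namespace Pool.Agent.Helper878_c5

open Pool.Agent.NPC Pool.Agent.Helper878_dcs Pool.Agent.H671R2.SF
open Pool.Agent.Helper878_mm (threeP1 TP free3_iff tpB tpB_iff nm nm_mem zB s1B s2B)

/-! ### Programs -/

/-- an edge which serves every terminal set -/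
def eB (E : List (ℕ × ℕ)) (J : List (List ℕ)) (u v : ℕ) : Bool :=
  adj E u v && J.any fun Z => !zB E Z u && (!zB E Z v && !decide (s1B E Z u = s1B E Z v))

/-- the node of a terminal set -/
def an (Z : List ℕ) : ℕ × ℕ := (nm Z, 0)

/-- the node of a nonterminal -/
def bn (w : ℕ) : ℕ × ℕ := (w, 1)

def nodC (W : List ℕ) (J : List (List ℕ)) : List (ℕ × ℕ) := J.map an ++ W.map bn

def lnkC (E : List (ℕ × ℕ)) (W : List ℕ) (J : List (List ℕ)) : List ((ℕ × ℕ) × (ℕ × ℕ)) :=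
  (((J ×ˢ W).filter fun p => zB E p.1 p.2).map fun p => (an p.1, bn p.2)) ++
    ((W ×ˢ W).filter fun p => eB E J p.1 p.2).map fun p => (bn p.1, bn p.2)

def coreC (E : List (ℕ × ℕ)) (W : List ℕ) (J : List (List ℕ)) : Bool :=
  decide (J.length ≤ (maxM (nodC W J) (lnkC E W J)).length)

def npB (V : List ℕ) (E : List (ℕ × ℕ)) (Zs : List (List ℕ)) : Bool :=
  Zs.all fun Z => Zs.all fun Y => decide (Z = Y) || Y.all fun y => Z.all fun z =>
    (freeV V Zs).all fun a => (freeV V Zs).all fun b => Z.all fun z' =>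
      !(adj E y z && (adj E z a && (adj E a b && (adj E b z' && (adj E z' y &&
        (!adj E y a && (!adj E y b && (!adj E z b && (!adj E z z' && !adj E a z')))))))))

section
variable {γ : Type} [TEnc γ] {E : γ → List (ℕ × ℕ)} {V W : γ → List ℕ} {J : γ → List (List ℕ)}
  {u v : γ → ℕ}

@[fun_prop]
theorem poly_eB (hE : Poly E) (hJ : Poly J) (hu : Poly u) (hv : Poly v) :
    Poly (fun x => eB (E x) (J x) (u x) (v x)) := by
  unfold eB; fun_prop

@[fun_prop]
theorem poly_bn (hu : Poly u) : Poly (fun x => bn (u x)) := by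
  unfold bn; fun_prop

@[fun_prop]
theorem poly_an {Z : γ → List ℕ} (hZ : Poly Z) : Poly (fun x => an (Z x)) := by
  unfold an; fun_prop

@[fun_prop]
theorem poly_nodC (hW : Poly W) (hJ : Poly J) : Poly (fun x => nodC (W x) (J x)) := by
  unfold nodC; fun_prop

@[fun_prop]
theorem poly_lnkC (hE : Poly E) (hW : Poly W) (hJ : Poly J) :
    Poly (fun x => lnkC (E x) (W x) (J x)) := by
  unfold lnkC; fun_prop

@[fun_prop]
theorem poly_coreC (hE : Poly E) (hW : Poly W) (hJ : Poly J) :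
    Poly (fun x => coreC (E x) (W x) (J x)) := by
  unfold coreC; fun_prop

@[fun_prop]
theorem poly_npB (hE : Poly E) (hV : Poly V) (hJ : Poly J) :
    Poly (fun x => npB (V x) (E x) (J x)) := by
  unfold npB; fun_prop

end

/-! ### Structure -/

section
variable {E : List (ℕ × ℕ)} {U : Finset ℕ} {W : List ℕ} {J : List (List ℕ)}

theorem s1_iff {Z : List ℕ} {w : ℕ} :
    s1B E Z w = true ↔ ¬ miss (GG E) Z.toFinset w (nm Z) := nmiss_iff

theorem s1_false {Z : List ℕ} {w : ℕ} :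
    s1B E Z w = false ↔ miss (GG E) Z.toFinset w (nm Z) := by
  rw [← Bool.not_eq_true, s1_iff, not_not]

theorem s2_iff {Z : List ℕ} {w : ℕ} :
    s2B E Z w = true ↔ ∃ z ∈ Z.toFinset, ¬ near (GG E) Z.toFinset (nm Z) z ∧
    ¬ miss (GG E) Z.toFinset w z := by
  unfold s2B
  simp only [List.any_eq_true, Bool.and_eq_true, nnear_iff, nmiss_iff, List.mem_toFinset]

structure S0 (E : List (ℕ × ℕ)) (U : Finset ℕ) (W : List ℕ) (J : List (List ℕ)) : Prop where
  lc : LCtx E U W J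
  tp : TP (GG E) U

variable (h : S0 E U W J) {Z : List ℕ} (hZ : Z ∈ J)
include h hZ

theorem S0.nmm : nm Z ∈ Z.toFinset := List.mem_toFinset.2 (nm_mem (h.lc.hne Z hZ))

theorem S0.ne' : Z.toFinset.Nonempty := ⟨_, h.nmm hZ⟩

theorem S0.other : ∃ z ∈ Z.toFinset, ¬ near (GG E) Z.toFinset (nm Z) z :=
  exists_not_near (h.ne' hZ) (h.lc.hdc Z hZ) _ (h.nmm hZ)

theorem S0.two {x y z : ℕ} (hx : x ∈ Z.toFinset) (hy : y ∈ Z.toFinset) (hz : z ∈ Z.toFinset)
    (h1 : ¬ near (GG E) Z.toFinset x y) (h2 : ¬ near (GG E) Z.toFinset x z) :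
    near (GG E) Z.toFinset y z := by
  by_contra h3
  have hU := h.lc.hJU Z hZ
  rcases h.tp x (hU hx) y (hU hy) z (hU hz) (fun he => h1 (he ▸ near_refl _ _))
    (fun he => h2 (he ▸ near_refl _ _)) (fun he => h3 (he ▸ near_refl _ _)) with h4 | h4 | h4
  · exact h1 (near_of_adj h4)
  · exact h2 (near_of_adj h4)
  · exact h3 (near_of_adj h4)

theorem S0.adj_or {x y w : ℕ} (hx : x ∈ Z.toFinset) (hy : y ∈ Z.toFinset) (hw : w ∈ W)
    (h1 : ¬ near (GG E) Z.toFinset x y) : (GG E).Adj w x ∨ (GG E).Adj w y := by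
  have hU := h.lc.hJU Z hZ
  have hwU : w ∈ U := h.lc.hWU (List.mem_toFinset.2 hw)
  have hd := Finset.disjoint_left.1 (h.lc.hJW Z hZ)
  rcases h.tp w hwU x (hU hx) y (hU hy) (fun he => hd hx (he ▸ List.mem_toFinset.2 hw))
    (fun he => hd hy (he ▸ List.mem_toFinset.2 hw)) (fun he => h1 (he ▸ near_refl _ _)) with
    h4 | h4 | h4
  · exact Or.inl h4
  · exact Or.inr h4
  · exact absurd (near_of_adj h4) h1

/-- a nonterminal of the first kind misses the second class -/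
theorem S0.kind1 {a : ℕ} (h1 : zB E Z a = false) (h2 : s1B E Z a = true) :
    ∀ z ∈ Z.toFinset, ¬ near (GG E) Z.toFinset (nm Z) z → miss (GG E) Z.toFinset a z := by
  intro z hz hn
  by_contra hm
  have e1 : s2B E Z a = true := s2_iff.2 ⟨z, hz, hn, hm⟩
  unfold zB at h1
  rw [h2, e1] at h1
  exact absurd h1 (by decide)

/-- the vertex of `Z` in the class missed by nonterminals of the given kind -/
theorem S0.missed (c : Bool) : ∃ z ∈ Z, ∀ w ∈ W, zB E Z w = false → s1B E Z w = c →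
    ¬ (GG E).Adj w z := by
  cases c
  · refine ⟨nm Z, List.mem_toFinset.1 (h.nmm hZ), fun w _ _ h2 => ?_⟩
    exact miss_self (h.nmm hZ) (s1_false.1 h2)
  · obtain ⟨z, hz, hn⟩ := h.other hZ
    refine ⟨z, List.mem_toFinset.1 hz, fun w _ h1 h2 => ?_⟩
    exact miss_self hz (h.kind1 hZ h1 h2 z hz hn)

/-- a nonterminal seeing both classes is enough -/
theorem S0.single {c : ℕ} (hc : zB E Z c = true) : Con (GG E) (Z.toFinset ∪ {c}) := by
  have hK := h.lc.hK
  have hU := h.lc.hJU Z hZ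
  have hne := h.ne' hZ
  have hd := h.lc.hdc Z hZ
  have h0 := h.nmm hZ
  unfold zB at hc
  rw [Bool.and_eq_true, s1_iff, s2_iff] at hc
  obtain ⟨h1, z', hz', h2, h3⟩ := hc
  refine con_single hne fun z hz hm => ?_
  by_cases hn : near (GG E) Z.toFinset (nm Z) z
  · exact h1 (miss_congr hK hU hne hd hz h0 (near_symm hn) hm)
  · exact h3 (miss_congr hK hU hne hd hz hz' (h.two hZ h0 hz hz' hn h2) hm)

theorem S0.pair1 {a b : ℕ} (hb : b ∈ W) (ha2 : s1B E Z a = true)
    (hb2 : s1B E Z b = false) (hab : (GG E).Adj a b) : Con (GG E) (Z.toFinset ∪ {a, b}) := by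
  have hK := h.lc.hK
  have hU := h.lc.hJU Z hZ
  have hne := h.ne' hZ
  have hd := h.lc.hdc Z hZ
  have h0 := h.nmm hZ
  rw [s1_iff] at ha2
  have hbm := s1_false.1 hb2
  refine con_pair hne ?_ (Or.inl hab)
  intro z hz
  by_cases hn : near (GG E) Z.toFinset (nm Z) z
  · exact Or.inl fun hm => ha2 (miss_congr hK hU hne hd hz h0 (near_symm hn) hm)
  · right
    intro hm
    rcases h.adj_or hZ h0 hz hb hn with h5 | h5
    · exact miss_self h0 hbm h5
    · exact miss_self hz hm h5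

/-- two adjacent nonterminals of different kinds are enough -/
theorem S0.pair {a b : ℕ} (ha : a ∈ W) (hb : b ∈ W) (hs : s1B E Z a ≠ s1B E Z b)
    (hab : (GG E).Adj a b) : Con (GG E) (Z.toFinset ∪ {a, b}) := by
  cases h1 : s1B E Z a <;> cases h2 : s1B E Z b
  · rw [h1, h2] at hs; exact absurd rfl hs
  · rw [Finset.pair_comm]
    exact h.pair1 hZ ha h2 h1 hab.symm
  · exact h.pair1 hZ hb h1 h2 hab
  · rw [h1, h2] at hs; exact absurd rfl hs

theorem S0.conv {o : Finset ℕ} (ho : o ⊆ W.toFinset) (hc : Con (GG E) (Z.toFinset ∪ o)) :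
    (∃ c ∈ o, zB E Z c = true) ∨ ∃ a ∈ o, ∃ b ∈ o, (GG E).Adj a b ∧ zB E Z a = false ∧
      zB E Z b = false ∧ s1B E Z a ≠ s1B E Z b := by
  by_cases hz : ∃ c ∈ o, zB E Z c = true
  · exact Or.inl hz
  right
  push Not at hz
  have hz' : ∀ c ∈ o, zB E Z c = false := fun c hc => Bool.not_eq_true _ ▸ hz c hc
  have hK := h.lc.hK
  have hU := h.lc.hJU Z hZ
  have hne := h.ne' hZ
  have hd := h.lc.hdc Z hZ
  have h0 := h.nmm hZ
  have hmem : ∀ b ∈ (Z.toFinset ∪ o) \ Z.toFinset, b ∈ o := fun b hb => by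
    rw [Finset.mem_sdiff, Finset.mem_union] at hb
    exact hb.1.resolve_left hb.2
  obtain ⟨z1, hz1, hn1⟩ := h.other hZ
  obtain ⟨b, hb, a, ha, h1, h2, h3⟩ := exists_edge hK hU hne hd Finset.subset_union_left hc h0
    (by
      rintro ⟨x, hx, y, hy, z, hz, e1, e2, e3⟩
      exact e3 (h.two hZ hx hy hz e1 e2))
    (by
      intro b hb hbm
      exact ⟨z1, hz1, h.kind1 hZ (hz' b (hmem b hb)) (s1_iff.2 hbm) z1 hz1 hn1⟩)
  refine ⟨b, hmem b hb, a, hmem a ha, h3.symm, hz' _ (hmem b hb), hz' _ (hmem a ha), ?_⟩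
  rw [s1_iff.2 h1, s1_false.2 h2]
  decide

end

/-- The kinds of nonterminals are consistent. -/
def Cons (E : List (ℕ × ℕ)) (W : List ℕ) (J : List (List ℕ)) : Prop :=
  ∀ Z ∈ J, ∀ Y ∈ J, ∀ a ∈ W, ∀ b ∈ W, zB E Z a = false → zB E Z b = false → zB E Y a = false →
    zB E Y b = false → s1B E Z a ≠ s1B E Z b → s1B E Y a ≠ s1B E Y b

section
variable {E : List (ℕ × ℕ)} {U : Finset ℕ} {W : List ℕ} {J : List (List ℕ)}

theorem feas_iff_assign (h : S0 E U W J) (hc : Cons E W J) :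
    Feas (GG E) W.toFinset (Zf J) ↔ Assign (Finset.univ : Finset {Z // Z ∈ J})
      (fun i w => w ∈ W ∧ zB E i.1 w = true) (fun a b => a ∈ W ∧ b ∈ W ∧ eB E J a b = true) := by
  have he : ∀ a b, eB E J a b = true ↔ (GG E).Adj a b ∧ ∃ Z ∈ J, zB E Z a = false ∧
      zB E Z b = false ∧ s1B E Z a ≠ s1B E Z b := by
    intro a b
    unfold eB
    simp only [Bool.and_eq_true, adj_iff, List.any_eq_true, Bool.not_eq_true', decide_eq_false_iff_not,
      ne_eq]
  constructor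
  · rintro ⟨o, ho, hd⟩
    have hex : ∀ i : {Z // Z ∈ J}, ∃ s ⊆ o i, (∃ w, s = {w} ∧ (w ∈ W ∧ zB E i.1 w = true)) ∨
        ∃ w w', w ≠ w' ∧ s = {w, w'} ∧ (w ∈ W ∧ w' ∈ W ∧ eB E J w w' = true) := by
      intro i
      have hoW : ∀ x ∈ o i, x ∈ W := fun x hx => List.mem_toFinset.1 ((ho i).1 hx)
      rcases h.conv i.2 (ho i).1 (ho i).2 with ⟨c, hc1, hc2⟩ | ⟨a, ha, b, hb, h1, h2, h3, h4⟩
      · exact ⟨{c}, Finset.singleton_subset_iff.2 hc1, Or.inl ⟨c, rfl, hoW c hc1, hc2⟩⟩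
      · exact ⟨{a, b}, Finset.insert_subset ha (Finset.singleton_subset_iff.2 hb),
          Or.inr ⟨a, b, h1.ne, rfl, hoW a ha, hoW b hb, (he a b).2 ⟨h1, i.1, i.2, h2, h3, h4⟩⟩⟩
    choose s hs1 hs2 using hex
    exact ⟨s, fun i _ j _ hij => Finset.disjoint_of_subset_left (hs1 i)
      (Finset.disjoint_of_subset_right (hs1 j) (hd i j hij)), fun i _ => hs2 i⟩
  · rintro ⟨g, hg1, hg2⟩
    have hex : ∀ i : {Z // Z ∈ J}, ∃ s ⊆ g i, s ⊆ W.toFinset ∧
        Con (GG E) (i.1.toFinset ∪ s) := by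
      intro i
      rcases hg2 i (Finset.mem_univ i) with ⟨w, hw, hw1, hw2⟩ | ⟨a, b, hne, hw, ha, hb, hab⟩
      · exact ⟨{w}, by rw [hw], Finset.singleton_subset_iff.2 (List.mem_toFinset.2 hw1),
          h.single i.2 hw2⟩
      · have haW := List.mem_toFinset.2 ha
        have hbW := List.mem_toFinset.2 hb
        cases h1 : zB E i.1 a
        · cases h2 : zB E i.1 b
          · obtain ⟨h3, Z, hZ, h4, h5, h6⟩ := (he a b).1 hab
            have h7 := hc Z hZ i.1 i.2 a ha b hb h4 h5 h1 h2 h6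
            exact ⟨{a, b}, by rw [hw], Finset.insert_subset haW
              (Finset.singleton_subset_iff.2 hbW), h.pair i.2 ha hb h7 h3⟩
          · exact ⟨{b}, by rw [hw]; exact Finset.singleton_subset_iff.2 (by simp),
              Finset.singleton_subset_iff.2 hbW, h.single i.2 h2⟩
        · exact ⟨{a}, by rw [hw]; exact Finset.singleton_subset_iff.2 (by simp),
            Finset.singleton_subset_iff.2 haW, h.single i.2 h1⟩
    choose s hs1 hs2 using hex
    exact ⟨s, hs2, fun i j hij => Finset.disjoint_of_subset_left (hs1 i)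
      (Finset.disjoint_of_subset_right (hs1 j) (hg1 i (Finset.mem_univ i) j (Finset.mem_univ j)
        hij))⟩

theorem assign_core (h : S0 E U W J) : Assign (Finset.univ : Finset {Z // Z ∈ J})
      (fun i w => w ∈ W ∧ zB E i.1 w = true) (fun a b => a ∈ W ∧ b ∈ W ∧ eB E J a b = true) ↔
      coreC E W J = true := by
  have hl := Pool.Agent.Helper878_mm.LCtx.toLC h.lc
  unfold coreC
  rw [decide_eq_true_eq, ← Pool.Agent.Helper878_mm.card_J h.lc.hJn, ← Finset.card_univ]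
  refine assign_iff Finset.univ _ _ W.toFinset (fun i => an i.1) bn ?_ ?_
    ?_ (nodC W J) (lnkC E W J) ?_ ?_ ?_ ?_ ?_
  · intro i _ j _ hij
    exact Subtype.ext (hl.nm_inj i.2 j.2 (Prod.mk.inj hij).1)
  · intro a b hab
    exact (Prod.mk.inj hab).1
  · intro i _ w hw
    exact absurd (Prod.mk.inj hw).2 (by decide)
  · unfold nodC
    rw [List.nodup_append]
    refine ⟨List.Nodup.map_on (fun Z hZ Z' hZ' he => hl.nm_inj hZ hZ' (Prod.mk.inj he).1) hl.hJn,
      hl.hWn.map (fun a b hab => (Prod.mk.inj hab).1), ?_⟩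
    intro a ha b hb hab
    obtain ⟨Z, _, rfl⟩ := List.mem_map.1 ha
    obtain ⟨w, _, rfl⟩ := List.mem_map.1 hb
    exact absurd (Prod.mk.inj hab).2 (by decide)
  · intro v
    unfold nodC
    rw [List.mem_append, List.mem_map, List.mem_map]
    refine or_congr ?_ ?_
    · constructor
      · rintro ⟨Z, hZ, rfl⟩
        exact ⟨⟨Z, hZ⟩, Finset.mem_univ _, rfl⟩
      · rintro ⟨i, _, hi⟩
        exact ⟨i.1, i.2, hi.symm⟩
    · constructor
      · rintro ⟨w, hw, rfl⟩
        exact ⟨w, List.mem_toFinset.2 hw, rfl⟩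
      · rintro ⟨w, hw, rfl⟩
        exact ⟨w, List.mem_toFinset.1 hw, rfl⟩
  · intro x y
    unfold lnkC
    rw [List.mem_append, List.mem_map, List.mem_map]
    refine or_congr ?_ ?_
    · constructor
      · rintro ⟨⟨Z, w⟩, hm, he⟩
        rw [List.mem_filter, List.mem_product] at hm
        obtain ⟨⟨hZ, hw⟩, hz⟩ := hm
        exact ⟨⟨Z, hZ⟩, Finset.mem_univ _, w, List.mem_toFinset.2 hw, (Prod.mk.inj he).1.symm,
          (Prod.mk.inj he).2.symm, hw, hz⟩
      · rintro ⟨i, _, w, _, h1, h2, h3, h4⟩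
        refine ⟨(i.1, w), List.mem_filter.2 ⟨List.mem_product.2 ⟨i.2, h3⟩, h4⟩, ?_⟩
        rw [h1, h2]
    · constructor
      · rintro ⟨⟨a, b⟩, hm, he⟩
        rw [List.mem_filter, List.mem_product] at hm
        obtain ⟨⟨ha, hb⟩, hab⟩ := hm
        have hne : a ≠ b := by
          have hab' : eB E J a b = true := hab
          unfold eB at hab'
          rw [Bool.and_eq_true, adj_iff] at hab'
          exact hab'.1.ne
        exact ⟨a, List.mem_toFinset.2 ha, b, List.mem_toFinset.2 hb, (Prod.mk.inj he).1.symm,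
          (Prod.mk.inj he).2.symm, hne, ha, hb, hab⟩
      · rintro ⟨a, _, b, _, h1, h2, _, ha, hb, hab⟩
        refine ⟨(a, b), List.mem_filter.2 ⟨List.mem_product.2 ⟨ha, hb⟩, hab⟩, ?_⟩
        rw [h1, h2]
  · intro i w hw
    exact List.mem_toFinset.2 hw.1
  · intro a b hab
    exact ⟨List.mem_toFinset.2 hab.1, List.mem_toFinset.2 hab.2.1⟩

/-- Without pentagons the kinds are consistent. -/
theorem cons_of (h : S0 E U W J)
    (hp : ∀ Z ∈ J, ∀ Y ∈ J, Z ≠ Y → ∀ y ∈ Y, ∀ z ∈ Z, ∀ a ∈ W, ∀ b ∈ W, ∀ z' ∈ Z,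
      ¬ ((GG E).Adj y z ∧ (GG E).Adj z a ∧ (GG E).Adj a b ∧ (GG E).Adj b z' ∧ (GG E).Adj z' y ∧
        ¬ (GG E).Adj y a ∧ ¬ (GG E).Adj y b ∧ ¬ (GG E).Adj z b ∧ ¬ (GG E).Adj z z' ∧
        ¬ (GG E).Adj a z')) : Cons E W J := by
  -- it suffices to treat one order of the kinds
  have key : ∀ Z ∈ J, ∀ Y ∈ J, ∀ a ∈ W, ∀ b ∈ W, zB E Z a = false → zB E Z b = false →
      zB E Y a = false → zB E Y b = false → s1B E Z a = true → s1B E Z b = false →
      s1B E Y a ≠ s1B E Y b := by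
    intro Z hZ Y hY a ha b hb hza hzb hya hyb h1 h2 heq
    have hZY : Z ≠ Y := by
      rintro rfl
      rw [h1, h2] at heq
      exact absurd heq (by decide)
    obtain ⟨y, hy, hyw⟩ := h.missed hY (s1B E Y a)
    obtain ⟨z', hz', hz'w⟩ := h.missed hZ true
    have e0 := h.nmm hZ
    have haz' := hz'w a ha hza h1
    have hya' := hyw a ha hya rfl
    have hyb' := hyw b hb hyb heq.symm
    have hbz : ¬ (GG E).Adj b (nm Z) := miss_self e0 (s1_false.1 h2)
    obtain ⟨z1, hz1, hn1⟩ := h.other hZ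
    have haz1 := miss_self hz1 (h.kind1 hZ hza h1 z1 hz1 hn1)
    have haz : (GG E).Adj a (nm Z) := (h.adj_or hZ e0 hz1 ha hn1).resolve_right haz1
    have hbz1 : (GG E).Adj b z1 := (h.adj_or hZ e0 hz1 hb hn1).resolve_left hbz
    have hU := h.lc.hJU
    have hyU : y ∈ U := hU Y hY (List.mem_toFinset.2 hy)
    have haU : a ∈ U := h.lc.hWU (List.mem_toFinset.2 ha)
    have hbU : b ∈ U := h.lc.hWU (List.mem_toFinset.2 hb)
    have hZU := hU Z hZ
    have hdW : ∀ X ∈ J, ∀ x ∈ X, ∀ w ∈ W, x ≠ w := fun X hX x hx w hw he =>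
      Finset.disjoint_left.1 (h.lc.hJW X hX) (List.mem_toFinset.2 hx)
        (List.mem_toFinset.2 (he ▸ hw))
    have hdZ : ∀ z ∈ Z.toFinset, y ≠ z := fun z hz he =>
      Finset.disjoint_left.1 (h.lc.hdis Z hZ Y hY hZY) hz (List.mem_toFinset.2 (he ▸ hy))
    have hab : (GG E).Adj a b := by
      rcases h.tp y hyU a haU b hbU (hdW Y hY y hy a ha) (hdW Y hY y hy b hb)
        (fun he => by rw [he, h2] at h1; exact absurd h1 (by decide)) with h3 | h3 | h3
      · exact absurd h3.symm hya'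
      · exact absurd h3.symm hyb'
      · exact h3
    have hyz : (GG E).Adj y (nm Z) := by
      rcases h.tp y hyU (nm Z) (hZU e0) b hbU (hdZ _ e0) (hdW Y hY y hy b hb)
        (hdW Z hZ _ (List.mem_toFinset.1 e0) b hb) with h3 | h3 | h3
      · exact h3
      · exact absurd h3.symm hyb'
      · exact absurd h3.symm hbz
    have hyz1 : (GG E).Adj z1 y := by
      rcases h.tp y hyU z1 (hZU hz1) a haU (hdZ _ hz1) (hdW Y hY y hy a ha)
        (hdW Z hZ _ (List.mem_toFinset.1 hz1) a ha) with h3 | h3 | h3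
      · exact h3.symm
      · exact absurd h3.symm hya'
      · exact absurd h3.symm haz1
    exact hp Z hZ Y hY hZY y hy (nm Z) (List.mem_toFinset.1 e0) a ha b hb z1
      (List.mem_toFinset.1 hz1) ⟨hyz, haz.symm, hab, hbz1, hyz1, fun h3 => hya' h3.symm,
        fun h3 => hyb' h3.symm, fun h3 => hbz h3.symm, fun h3 => hn1 (near_of_adj h3), haz1⟩
  intro Z hZ Y hY a ha b hb hza hzb hya hyb hne
  cases h1 : s1B E Z a <;> cases h2 : s1B E Z b
  · rw [h1, h2] at hne; exact absurd rfl hne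
  · exact (key Z hZ Y hY b hb a ha hzb hza hyb hya h2 h1).symm
  · exact key Z hZ Y hY a ha b hb hza hzb hya hyb h1 h2
  · rw [h1, h2] at hne; exact absurd rfl hne

end

theorem npB_iff {I : Inst} (hw : WellFormed I) : npB I.1 I.2.1 I.2.2 = true ↔ NoPentagon I := by
  unfold npB NoPentagon
  simp only [List.all_eq_true, Bool.or_eq_true, decide_eq_true_eq, Bool.not_eq_true',
    ← Bool.not_eq_true, Bool.and_eq_true, adj_iff, mem_freeV]
  constructor
  · intro h Z hZ Y hY hZY y z a b z' hz hz' hy ha hb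
    have := ((h Z hZ Y hY).resolve_left hZY) y.1 hy z.1 hz a.1 ⟨a.2, ha⟩ b.1 ⟨b.2, hb⟩ z'.1 hz'
    simp only [graph_adj]
    exact this
  · intro h Z hZ Y hY
    by_cases hZY : Z = Y
    · exact Or.inl hZY
    · right
      intro y hy z hz a ha b hb z' hz'
      have h1 := (hw.2.2 Z hZ).2
      have h2 := (hw.2.2 Y hY).2
      have := h Z hZ Y hY hZY ⟨y, h2 y hy⟩ ⟨z, h1 z hz⟩ ⟨a, ha.1⟩ ⟨b, hb.1⟩ ⟨z', h1 z' hz'⟩ hz hz'
        hy ha.2 hb.2
      simp only [graph_adj] at this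
      exact this

/-- the whole algorithm -/
def solve (I : Inst) : Bool :=
  wfB I && tpB I.1 I.2.1 && npB I.1 I.2.1 I.2.2 &&
    coreC I.2.1 (freeV I.1 I.2.2) (discs I.2.1 I.2.2)

theorem poly_solve : Poly solve := by
  unfold solve wfB tpB nodupB
  fun_prop

theorem main : InPP (fun I : Inst => WellFormed I ∧ Free threeP1 (graph I.1 I.2.1) ∧
    NoPentagon I ∧ DCS I) := by
  refine inPP_of poly_solve fun I => ?_
  unfold solve
  rw [Bool.and_eq_true, Bool.and_eq_true, Bool.and_eq_true, wfB_iff, tpB_iff, free3_iff]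
  have key : WellFormed I → TP (GG I.2.1) I.1.toFinset → NoPentagon I →
      (DCS I ↔ coreC I.2.1 (freeV I.1 I.2.2) (discs I.2.1 I.2.2) = true) := by
    intro hw hT hN
    have h0 : S0 I.2.1 I.1.toFinset (freeV I.1 I.2.2) (discs I.2.1 I.2.2) :=
      ⟨lctx hw hT.kp, hT⟩
    rw [dcs_iff hw hT.kp, feas_iff_assign h0 (cons_of h0 ?_), assign_core h0]
    intro Z hZ Y hY hZY y hy z hz a ha b hb z' hz'
    have hZ' := (List.mem_filter.1 hZ).1
    have hY' := (List.mem_filter.1 hY).1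
    have h1 := (hw.2.2 Z hZ').2
    have h2 := (hw.2.2 Y hY').2
    rw [mem_freeV] at ha hb
    have := hN Z hZ' Y hY' hZY ⟨y, h2 y hy⟩ ⟨z, h1 z hz⟩ ⟨a, ha.1⟩ ⟨b, hb.1⟩ ⟨z', h1 z' hz'⟩ hz hz'
      hy ha.2 hb.2
    simp only [graph_adj] at this
    exact this
  constructor
  · rintro ⟨hw, hT, hN, hD⟩
    exact ⟨⟨⟨hw, hT⟩, (npB_iff hw).2 hN⟩, (key hw hT hN).1 hD⟩
  · rintro ⟨⟨⟨hw, hT⟩, hN⟩, hc⟩
    have hN' := (npB_iff hw).1 hN
    exact ⟨hw, hT, hN', (key hw hT hN').2 hc⟩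

end Pool.Agent.Helper878_c5
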