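import Pool.Agent.Helper878_mm.Defs

/-!
# Pentagons through two terminal sets: definitions
-/

set_option autoImplicit false

namespace Pool.Agent.Helper878_c5

open Pool.Agent.Helper878_dcs

/-- There is no induced `C_5` with vertices `y, z, a, b, z'` (in this cyclic order) such that `z`
and `z'` belong to one terminal set, `y` belongs to another terminal set, and `a` and `b` are
nonterminals. -/
def NoPentagon (I : Inst) : Prop :=
  ∀ Z ∈ I.2.2, ∀ Y ∈ I.2.2, Z ≠ Y → ∀ y z a b z' : {v // v ∈ I.1}, z.1 ∈ Z → z'.1 ∈ Z → y.1 ∈ Y →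
    (∀ X ∈ I.2.2, a.1 ∉ X) → (∀ X ∈ I.2.2, b.1 ∉ X) →
    ¬ ((graph I.1 I.2.1).Adj y z ∧ (graph I.1 I.2.1).Adj z a ∧ (graph I.1 I.2.1).Adj a b ∧
      (graph I.1 I.2.1).Adj b z' ∧ (graph I.1 I.2.1).Adj z' y ∧
      ¬ (graph I.1 I.2.1).Adj y a ∧ ¬ (graph I.1 I.2.1).Adj y b ∧ ¬ (graph I.1 I.2.1).Adj z b ∧
      ¬ (graph I.1 I.2.1).Adj z z' ∧ ¬ (graph I.1 I.2.1).Adj a z')

end Pool.Agent.Helper878_c5
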